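import Mathlib

set_option autoImplicit false
open Filter Topology Cardinal

namespace Pool.Agent.Helper177.Ultra

/-- the members of the classical independent family on a countable set -/
def XX (r : Set ℕ) : Set (Finset ℕ × Finset (Finset ℕ)) := by
  classical exact {e | (e.1.filter (· ∈ r)) ∈ e.2}

theorem XX_indep (s : Finset (Set ℕ)) (g : Set ℕ → Prop) :
    {e : Finset ℕ × Finset (Finset ℕ) | ∀ r ∈ s, (e ∈ XX r ↔ g r)}.Infinite := by
  classical
  -- N beyond which the traces of the members of s are distinct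
  have hN : ∃ N : ℕ, ∀ n, N ≤ n → ∀ r ∈ s, ∀ r' ∈ s,
      (Finset.range n).filter (· ∈ r) = (Finset.range n).filter (· ∈ r') → r = r' := by
    have h1 : ∀ r r' : Set ℕ, ∃ m : ℕ, r ≠ r' → ¬ (m ∈ r ↔ m ∈ r') := by
      intro r r'
      by_cases h : r = r'
      · exact ⟨0, fun h' => absurd h h'⟩
      · have : ∃ m, ¬ (m ∈ r ↔ m ∈ r') := by
          by_contra hcon
          push Not at hcon
          exact h (Set.ext hcon)
        obtain ⟨m, hm⟩ := this
        exact ⟨m, fun _ => hm⟩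
    choose m hm using h1
    refine ⟨(s.sup fun r => s.sup fun r' => m r r') + 1, ?_⟩
    intro n hn r hr r' hr' heq
    by_contra hne
    have h2 := hm r r' hne
    have h3 : m r r' ≤ s.sup fun r => s.sup fun r' => m r r' :=
      (Finset.le_sup (f := fun r' => m r r') hr').trans
        (Finset.le_sup (f := fun r => s.sup fun r' => m r r') hr)
    have h4 : m r r' < n := by omega
    apply h2
    have h5 := congrArg (fun t => m r r' ∈ t) heq
    simp only [Finset.mem_filter, Finset.mem_range, h4, true_and, eq_iff_iff] at h5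
    exact h5
  obtain ⟨N, hN⟩ := hN
  let e : ℕ → Finset ℕ × Finset (Finset ℕ) := fun n =>
    (Finset.range n, (s.filter g).image (fun r => (Finset.range n).filter (· ∈ r)))
  have he : Set.InjOn e (Set.Ici N) := by
    intro a _ b _ hab
    have : Finset.range a = Finset.range b := congrArg Prod.fst hab
    have := congrArg Finset.card this
    simpa using this
  have hinf : (e '' Set.Ici N).Infinite := (Set.Ici_infinite N).image he
  refine hinf.mono ?_
  rintro _ ⟨n, hn, rfl⟩ r hr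
  simp only [XX, Set.mem_ofPred_eq, e, Finset.mem_image, Finset.mem_filter]
  constructor
  · rintro ⟨r', ⟨hr', hg⟩, heq⟩
    rw [← hN n hn r' hr' r hr heq]
    exact hg
  · intro hg
    exact ⟨r, ⟨hr, hg⟩, rfl⟩

theorem exists_ultrafilters : ∃ q : (ℝ → Bool) → Ultrafilter ℕ,
    (∀ z, (q z : Filter ℕ) ≤ cofinite) ∧
    ∀ S : Set (ℝ → Bool), S.Countable → ∃ A : (ℝ → Bool) → Set ℕ,
      (∀ z ∈ S, A z ∈ q z) ∧ (∀ z ∈ S, ∀ w ∈ S, z ≠ w → Disjoint (A z) (A w)) := by
  classical
  -- coding of countable pieces of functions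
  have hcard : #((ℕ → ℝ) × (ℕ → Bool)) = #(Set ℕ) := by
    simp [Cardinal.mk_real]
  obtain ⟨cod⟩ : Nonempty (((ℕ → ℝ) × (ℕ → Bool)) ≃ Set ℕ) := Cardinal.eq.1 hcard
  let den : (Finset ℕ × Finset (Finset ℕ)) ≃ ℕ := Denumerable.eqv _
  let X : Set ℕ → Set ℕ := fun r => den '' XX r
  have hX : ∀ (s : Finset (Set ℕ)) (g : Set ℕ → Prop),
      {n : ℕ | ∀ r ∈ s, (n ∈ X r ↔ g r)}.Infinite := by
    intro s g
    have h := (XX_indep s g).image (den.injective.injOn)
    refine h.mono ?_
    rintro _ ⟨e, he, rfl⟩ r hr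
    simp only [X]
    rw [den.injective.mem_set_image]
    exact he r hr
  -- the condition attached to z
  let g : (ℝ → Bool) → Set ℕ → Prop := fun z r => z ∘ (cod.symm r).1 = (cod.symm r).2
  let Y : (ℝ → Bool) → Set ℕ → Set ℕ := fun z r => {n | n ∈ X r ↔ g z r}
  have hq : ∀ z : ℝ → Bool, ∃ q : Ultrafilter ℕ, (q : Filter ℕ) ≤ cofinite ∧ ∀ r, Y z r ∈ q := by
    intro z
    have hne : NeBot ((⨅ r, 𝓟 (Y z r)) ⊓ (cofinite : Filter ℕ)) := by
      rw [Filter.inf_neBot_iff]
      intro s hs t ht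
      obtain ⟨u, hu, hus⟩ := (Filter.hasBasis_iInf_principal_finite (Y z)).mem_iff.1 hs
      have h1 := hX hu.toFinset (g z)
      have h2 : (tᶜ : Set ℕ).Finite := ht
      obtain ⟨n, hn, hnt⟩ := h1.exists_notMem_finite h2
      refine ⟨n, hus ?_, by simpa using hnt⟩
      simp only [Set.mem_iInter]
      intro r hr
      exact hn r (by simpa using hr)
    have := hne
    refine ⟨Ultrafilter.of ((⨅ r, 𝓟 (Y z r)) ⊓ (cofinite : Filter ℕ)), (Ultrafilter.of_le _).trans inf_le_right, fun r => ?_⟩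
    have h1 : ((⨅ r, 𝓟 (Y z r)) ⊓ (cofinite : Filter ℕ)) ≤ 𝓟 (Y z r) :=
      inf_le_left.trans (iInf_le _ r)
    exact (Ultrafilter.of_le _).trans h1 (mem_principal_self _)
  choose q hq1 hq2 using hq
  refine ⟨q, hq1, ?_⟩
  intro S hS
  by_cases hne : S.Nonempty
  swap
  · rw [Set.not_nonempty_iff_eq_empty] at hne
    subst hne
    exact ⟨fun _ => ∅, by simp, by simp⟩
  obtain ⟨e, he⟩ := hS.exists_eq_range hne
  -- separating points
  have h1 : ∀ w w' : ℝ → Bool, ∃ x : ℝ, w ≠ w' → w x ≠ w' x := by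
    intro w w'
    by_cases h : w = w'
    · exact ⟨0, fun h' => absurd h h'⟩
    · obtain ⟨x, hx⟩ := Function.ne_iff.1 h
      exact ⟨x, fun _ => hx⟩
  choose d hd using h1
  let τ : ℕ → ℝ := fun n => d (e (Nat.unpair n).1) (e (Nat.unpair n).2)
  have hτ : ∀ i j, e i ∘ τ = e j ∘ τ → e i = e j := by
    intro i j hij
    by_contra hne
    have h2 := congrFun hij (Nat.pair i j)
    simp only [Function.comp, τ, Nat.unpair_pair] at h2
    exact hd _ _ hne h2
  have hτ' : ∀ z ∈ S, ∀ w ∈ S, z ∘ τ = w ∘ τ → z = w := by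
    intro z hz w hw h
    rw [he] at hz hw
    obtain ⟨i, rfl⟩ := hz
    obtain ⟨j, rfl⟩ := hw
    exact hτ i j h
  -- the discrete separation
  let B : (ℝ → Bool) → Set ℕ := fun z => X (cod (τ, z ∘ τ))
  have hB1 : ∀ z, B z ∈ q z := by
    intro z
    have := hq2 z (cod (τ, z ∘ τ))
    filter_upwards [this] with n hn
    simp only [Y, g, Set.mem_ofPred_eq, Equiv.symm_apply_apply] at hn
    exact hn.2 trivial
  have hB2 : ∀ z ∈ S, ∀ w ∈ S, z ≠ w → (B w)ᶜ ∈ q z := by
    intro z hz w hw hzw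
    have := hq2 z (cod (τ, w ∘ τ))
    filter_upwards [this] with n hn
    simp only [Y, g, Set.mem_ofPred_eq, Equiv.symm_apply_apply] at hn
    intro hn'
    exact hzw (hτ' z hz w hw (hn.1 hn'))
  -- first index of z
  have hidx : ∀ z ∈ S, ∃ i, e i = z := by
    intro z hz
    rw [he] at hz
    exact hz
  let idx : (ℝ → Bool) → ℕ := fun z => if h : ∃ i, e i = z then Nat.find h else 0
  have hidx' : ∀ z ∈ S, e (idx z) = z := by
    intro z hz
    simp only [idx, dif_pos (hidx z hz)]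
    exact Nat.find_spec (hidx z hz)
  let A : (ℝ → Bool) → Set ℕ := fun z => B z ∩ {n | ∀ j < idx z, e j ≠ z → n ∉ B (e j)}
  refine ⟨A, ?_, ?_⟩
  · intro z hz
    refine inter_mem (hB1 z) ?_
    have : {n | ∀ j < idx z, e j ≠ z → n ∉ B (e j)} =
        ⋂ j ∈ Finset.range (idx z), {n | e j ≠ z → n ∉ B (e j)} := by
      ext n; simp
    show {n | ∀ j < idx z, e j ≠ z → n ∉ B (e j)} ∈ (q z : Filter ℕ)
    rw [this, Filter.biInter_finset_mem]
    intro j _
    by_cases hj : e j = z
    · simp [hj]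
    · have h3 : e j ∈ S := by rw [he]; exact ⟨j, rfl⟩
      filter_upwards [hB2 z hz (e j) h3 (Ne.symm hj)] with n hn
      intro _
      exact hn
  · intro z hz w hw hzw
    rw [Set.disjoint_left]
    rintro n ⟨hn1, hn2⟩ ⟨hn3, hn4⟩
    rcases lt_trichotomy (idx z) (idx w) with h | h | h
    · refine hn4 (idx z) h ?_ ?_
      · rw [hidx' z hz]; exact hzw
      · rw [hidx' z hz]; exact hn1
    · apply hzw
      rw [← hidx' z hz, ← hidx' w hw, h]
    · refine hn2 (idx w) h ?_ ?_
      · rw [hidx' w hw]; exact Ne.symm hzw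
      · rw [hidx' w hw]; exact hn3

end Pool.Agent.Helper177.Ultra
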