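import Mathlib
import Pool.Agent.Helper177.Ultra

set_option autoImplicit false
open Filter Topology Cardinal

namespace Pool.Agent.Helper177.Grp

/-- index set of the ultrafilters -/
abbrev II := ℝ → Bool
/-- sequences of basic open sets -/
abbrev FF := ℕ → Finset ℝ × Finset ℝ

noncomputable def ind (P : Prop) : ZMod 2 := by classical exact if P then 1 else 0

theorem ind_true {P : Prop} (h : P) : ind P = 1 := by simp [ind, h]
theorem ind_false {P : Prop} (h : ¬ P) : ind P = 0 := by simp [ind, h]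
theorem zmod2_cases (a : ZMod 2) : a = 0 ∨ a = 1 := by
  revert a; decide
theorem ind_congr {P Q : Prop} (h : P ↔ Q) : ind P = ind Q := by
  by_cases h' : P
  · rw [ind_true h', ind_true (h.1 h')]
  · rw [ind_false h', ind_false (fun h2 => h' (h.2 h2))]
theorem ind_eq_one (a : ZMod 2) : ind (a = 1) = a := by
  rcases zmod2_cases a with h | h
  · rw [h]; exact ind_false (by decide)
  · rw [h]; exact ind_true rfl

theorem card_FF : #FF = 𝔠 := by
  simp [FF, Cardinal.mk_real]

theorem exists_enc : Nonempty (ℝ ≃ ((ℕ → FF × ℕ) × (ℕ → Bool) × ℝ)) := by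
  rw [← Cardinal.eq]
  have h1 := card_FF
  have h2 : #(ℕ → FF × ℕ) = 𝔠 := by
    have : #(FF × ℕ) = 𝔠 := by
      rw [Cardinal.mk_prod]
      simp only [Cardinal.lift_id, h1, Cardinal.mk_nat]
      exact Cardinal.continuum_mul_aleph0
    simp [this]
  rw [Cardinal.mk_prod, Cardinal.mk_prod]
  simp only [Cardinal.lift_id, h2, Cardinal.mk_real]
  simp

section
variable (Cc : ℝ → Set (FF × ℕ)) (q : II → Ultrafilter ℕ)

/-- the points `x_{f,n}` -/
noncomputable def xg (x : FF × ℕ) (α : ℝ) : ZMod 2 := by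
  classical exact if α ∈ (x.1 x.2).1 then ind (α ∈ (x.1 x.2).2) else ind (x ∈ Cc α)

/-- the limit points `x_{f,z}` -/
noncomputable def lg (x : FF × II) (α : ℝ) : ZMod 2 :=
  ind ({n | xg Cc (x.1, n) α = 1} ∈ q x.2)

/-- the group attached to `S` -/
noncomputable def GS (S : Set II) : Submodule (ZMod 2) (ℝ → ZMod 2) :=
  Submodule.span (ZMod 2) (Set.range (xg Cc)) ⊔ Submodule.span (ZMod 2) (lg Cc q '' {x | x.2 ∈ S})

/-- a `ZMod 2` valued sequence converges along an ultrafilter to the obvious value -/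
theorem tendsto_ind (u : Ultrafilter ℕ) (v : ℕ → ZMod 2) :
    ∀ᶠ n in (u : Filter ℕ), v n = ind ({n | v n = 1} ∈ u) := by
  by_cases h : {n | v n = 1} ∈ u
  · rw [ind_true h]; exact h
  · rw [ind_false h]
    have h2 : {n | v n = 1}ᶜ ∈ u := Ultrafilter.compl_mem_iff_notMem.2 h
    filter_upwards [h2] with n hn
    rcases zmod2_cases (v n) with h3 | h3
    · exact h3
    · exact absurd h3 hn

theorem xg_mem (S : Set II) (x : FF × ℕ) : xg Cc x ∈ GS Cc q S :=
  Submodule.mem_sup_left (Submodule.subset_span ⟨x, rfl⟩)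

theorem lg_mem (S : Set II) (x : FF × II) (hz : x.2 ∈ S) : lg Cc q x ∈ GS Cc q S :=
  Submodule.mem_sup_right (Submodule.subset_span ⟨x, hz, rfl⟩)

/-- Lemma 1: strong pseudocompactness along `q z` -/
theorem strong (S : Set II) (z : II) (hz : z ∈ S) (U : ℕ → Set (GS Cc q S))
    (hU : ∀ n, IsOpen (U n) ∧ (U n).Nonempty) :
    ∃ x : ℕ → GS Cc q S, (∀ n, x n ∈ U n) ∧ ∃ y : GS Cc q S, Tendsto x (q z : Filter ℕ) (𝓝 y) := by
  classical
  have h1 : ∀ n, ∃ KP : Finset ℝ × Finset ℝ, ∀ y : GS Cc q S,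
      (∀ α ∈ KP.1, y.1 α = ind (α ∈ KP.2)) → y ∈ U n := by
    intro n
    obtain ⟨hU1, x, hx⟩ := hU n
    obtain ⟨V, hV, hVU⟩ := isOpen_induced_iff.1 hU1
    have hxV : x.1 ∈ V := by
      have : x ∈ Subtype.val ⁻¹' V := by rw [hVU]; exact hx
      exact this
    obtain ⟨K, W, hK, hKV⟩ := isOpen_pi_iff.1 hV x.1 hxV
    refine ⟨(K, K.filter (fun α => x.1 α = 1)), ?_⟩
    intro y hy
    have : y ∈ Subtype.val ⁻¹' V := by
      apply hKV
      intro α hα
      have h2 := hy α hα
      have h3 : y.1 α = x.1 α := by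
        rw [h2]
        rcases zmod2_cases (x.1 α) with h4 | h4
        · rw [h4]
          apply ind_false
          simp [h4]
        · rw [h4]
          apply ind_true
          simp [h4]
          exact hα
      rw [h3]
      exact (hK α hα).2
    rw [hVU] at this
    exact this
  choose f hf using h1
  refine ⟨fun n => ⟨xg Cc (f, n), xg_mem Cc q S _⟩, ?_,
    ⟨⟨lg Cc q (f, z), lg_mem Cc q S _ hz⟩, ?_⟩⟩
  · intro n
    apply hf
    intro α hα
    simp [xg, hα]
  · rw [tendsto_subtype_rng, tendsto_pi_nhds]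
    intro α
    apply tendsto_nhds_of_eventually_eq
    exact tendsto_ind (q z) (fun n => xg Cc (f, n) α)

/-- evaluation of a set on the first kind of generators -/
noncomputable def evA (C : Set (FF × ℕ)) (x : FF × ℕ) : ZMod 2 := ind (x ∈ C)

/-- evaluation of a set on the second kind of generators -/
noncomputable def evB (C : Set (FF × ℕ)) (x : FF × II) : ZMod 2 := ind ({n | (x.1, n) ∈ C} ∈ q x.2)

abbrev VA := (FF × ℕ) →₀ ZMod 2
abbrev VB := (FF × II) →₀ ZMod 2

noncomputable def PA (C : Set (FF × ℕ)) : VA →ₗ[ZMod 2] ZMod 2 :=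
  Finsupp.linearCombination (ZMod 2) (evA C)
noncomputable def PB (C : Set (FF × ℕ)) : VB →ₗ[ZMod 2] ZMod 2 :=
  Finsupp.linearCombination (ZMod 2) (evB q C)

noncomputable def LA : VA →ₗ[ZMod 2] (ℝ → ZMod 2) :=
  Finsupp.linearCombination (ZMod 2) (xg Cc)
noncomputable def LB : VB →ₗ[ZMod 2] (ℝ → ZMod 2) :=
  Finsupp.linearCombination (ZMod 2) (lg Cc q)

theorem lc_congr {ι : Type} {v w : ι → ZMod 2} (a : ι →₀ ZMod 2)
    (h : ∀ x ∈ a.support, v x = w x) :
    Finsupp.linearCombination (ZMod 2) v a = Finsupp.linearCombination (ZMod 2) w a := by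
  rw [Finsupp.linearCombination_apply, Finsupp.linearCombination_apply]
  apply Finset.sum_congr rfl
  intro x hx
  simp only [h x hx]

theorem lc_zero {ι : Type} {v : ι → ZMod 2} (a : ι →₀ ZMod 2)
    (h : ∀ x ∈ a.support, v x = 0) :
    Finsupp.linearCombination (ZMod 2) v a = 0 := by
  rw [Finsupp.linearCombination_apply]
  apply Finset.sum_eq_zero
  intro x hx
  simp only [h x hx, smul_zero]

theorem lc_apply {ι : Type} (v : ι → ℝ → ZMod 2) (a : ι →₀ ZMod 2) (α : ℝ) :
    Finsupp.linearCombination (ZMod 2) v a α =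
      Finsupp.linearCombination (ZMod 2) (fun x => v x α) a := by
  rw [Finsupp.linearCombination_apply, Finsupp.linearCombination_apply]
  simp [Finsupp.sum, Finset.sum_apply]

/-- good coordinates compute the evaluation -/
theorem good_A (C : Set (FF × ℕ)) (a : VA) (α : ℝ)
    (h1 : ∀ x ∈ a.support, α ∉ (x.1 x.2).1) (h2 : ∀ x ∈ a.support, (x ∈ Cc α ↔ x ∈ C)) :
    LA Cc a α = PA C a := by
  rw [LA, lc_apply, PA]
  apply lc_congr
  intro x hx
  simp only [xg, if_neg (h1 x hx), evA]
  exact ind_congr (h2 x hx)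

theorem good_B (C : Set (FF × ℕ)) (b : VB) (α : ℝ)
    (h1 : ∀ x ∈ b.support, ∀ n, α ∉ (x.1 n).1)
    (h2 : ∀ x ∈ b.support, ∀ n, ((x.1, n) ∈ Cc α ↔ (x.1, n) ∈ C)) :
    LB Cc q b α = PB q C b := by
  rw [LB, lc_apply, PB]
  apply lc_congr
  intro x hx
  simp only [lg, evB]
  have : {n | xg Cc (x.1, n) α = 1} = {n | (x.1, n) ∈ C} := by
    ext n
    simp only [Set.mem_ofPred_eq, xg, if_neg (h1 x hx n)]
    rw [← h2 x hx n]
    constructor
    · intro h
      by_contra h'
      rw [ind_false h'] at h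
      exact absurd h (by decide)
    · intro h
      exact ind_true h
  rw [this]

/-- two sequences have the same limit functional along `p` -/
def SameLim (p : Ultrafilter ℕ) (a : ℕ → VA) (b : ℕ → VB) : Prop :=
  ∀ C : Set (FF × ℕ), ∀ᶠ n in (p : Filter ℕ), PA C (a n) = PB q C (b n)

noncomputable def pick (p : Ultrafilter ℕ) (a : ℕ → VA) : ℕ → VB := by
  classical exact if h : ∃ b, SameLim q p a b then Classical.choose h else 0

def zsupp (b : ℕ → VB) : Set II := {z | ∃ n, ∃ x ∈ (b n).support, x.2 = z}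

theorem zsupp_countable (b : ℕ → VB) : (zsupp b).Countable := by
  have : zsupp b = ⋃ n, Prod.snd '' ((b n).support : Set (FF × II)) := by
    ext z
    simp only [zsupp, Set.mem_ofPred_eq, Set.mem_iUnion, Set.mem_image, Finset.mem_coe]
  rw [this]
  exact Set.countable_iUnion fun n => ((b n).support.finite_toSet.image _).countable

/-- the indices that are bad for `p` -/
def bad (p : Ultrafilter ℕ) : Set II := ⋃ a : ℕ → VA, zsupp (pick q p a)

theorem card_bad (p : Ultrafilter ℕ) : #(bad q p) ≤ 𝔠 := by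
  have h1 : #(ℕ → VA) ≤ 𝔠 := by
    have h2 : #VA ≤ 𝔠 := by
      have : #(FF × ℕ) = 𝔠 := by
        rw [Cardinal.mk_prod]
        simp only [Cardinal.lift_id, card_FF, Cardinal.mk_nat]
        exact Cardinal.continuum_mul_aleph0
      rw [Cardinal.mk_finsupp_of_infinite, this]
      apply max_le le_rfl
      exact (Cardinal.lt_aleph0_of_finite (ZMod 2)).le.trans Cardinal.aleph0_le_continuum
    rw [← Cardinal.power_def, Cardinal.mk_nat]
    calc #VA ^ ℵ₀ ≤ 𝔠 ^ ℵ₀ := Cardinal.power_le_power_right h2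
      _ = 𝔠 := Cardinal.continuum_power_aleph0
  refine (Cardinal.mk_iUnion_le _).trans ?_
  have h3 : ⨆ a : ℕ → VA, #(zsupp (pick q p a)) ≤ ℵ₀ := by
    apply ciSup_le'
    intro a
    exact (zsupp_countable _).le_aleph0
  calc #(ℕ → VA) * ⨆ a : ℕ → VA, #(zsupp (pick q p a)) ≤ 𝔠 * ℵ₀ := mul_le_mul' h1 h3
    _ = 𝔠 := Cardinal.continuum_mul_aleph0

/-- the separation property of the family of ultrafilters -/
def Sep : Prop := ∀ S : Set II, S.Countable → ∃ A : II → Set ℕ,
      (∀ z ∈ S, A z ∈ q z) ∧ (∀ z ∈ S, ∀ w ∈ S, z ≠ w → Disjoint (A z) (A w))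

/-- vanishing of the limit functional -/
theorem vanish (hq : Sep q) (p : Ultrafilter ℕ) (a : ℕ → VA) (b : ℕ → VB)
    (hab : SameLim q p a b) (hb : ∀ z ∈ zsupp b, z ∉ bad q p) (C : Set (FF × ℕ)) :
    ∀ᶠ n in (p : Filter ℕ), PA C (a n) = 0 := by
  classical
  have hex : ∃ b, SameLim q p a b := ⟨b, hab⟩
  have hpick : SameLim q p a (pick q p a) := by
    unfold pick
    rw [dif_pos hex]
    exact Classical.choose_spec hex
  have hzp : zsupp (pick q p a) ⊆ bad q p := Set.subset_iUnion (fun a => zsupp (pick q p a)) a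
  obtain ⟨A, hA1, hA2⟩ := hq (zsupp b ∪ zsupp (pick q p a))
    ((zsupp_countable _).union (zsupp_countable _))
  let D : Set ℕ := ⋃ z ∈ zsupp b, A z
  let C' : Set (FF × ℕ) := {x | x ∈ C ∧ x.2 ∈ D}
  have e1 : ∀ n, PB q C (b n) = PB q C' (b n) := by
    intro n
    apply lc_congr
    intro x hx
    have hz : x.2 ∈ zsupp b := ⟨n, x, hx, rfl⟩
    have hD : D ∈ q x.2 :=
      mem_of_superset (hA1 x.2 (Or.inl hz)) (Set.subset_biUnion_of_mem (u := fun z => A z) hz)
    simp only [evB]
    apply ind_congr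
    constructor
    · intro h
      filter_upwards [h, hD] with m hm1 hm2
      exact ⟨hm1, hm2⟩
    · intro h
      filter_upwards [h] with m hm1
      exact hm1.1
  have e2 : ∀ n, PB q C' (pick q p a n) = 0 := by
    intro n
    apply lc_zero
    intro x hx
    have hz : x.2 ∈ zsupp (pick q p a) := ⟨n, x, hx, rfl⟩
    simp only [evB]
    apply ind_false
    intro h
    have h3 := inter_mem h (hA1 x.2 (Or.inr hz))
    have h4 : {n | (x.1, n) ∈ C'} ∩ A x.2 = ∅ := by
      ext m
      simp only [Set.mem_inter_iff, Set.mem_ofPred_eq, Set.mem_empty_iff_false, iff_false, C', D]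
      rintro ⟨⟨_, hm⟩, hm2⟩
      simp only [Set.mem_iUnion] at hm
      obtain ⟨z, hz1, hz2⟩ := hm
      have hne : z ≠ x.2 := by
        intro h5
        rw [h5] at hz1
        exact hb _ hz1 (hzp hz)
      exact Set.disjoint_left.1 (hA2 z (Or.inl hz1) x.2 (Or.inr hz) hne) hz2 hm2
    rw [h4] at h3
    exact Ultrafilter.empty_notMem h3
  filter_upwards [hab C, hab C', hpick C'] with n h1 h2 h3
  rw [h1, e1, ← h2, h3, e2]

/-- all linear functionals vanish eventually -/
theorem vanish_all (hq : Sep q) (p : Ultrafilter ℕ) (a : ℕ → VA) (b : ℕ → VB)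
    (hab : SameLim q p a b) (hb : ∀ z ∈ zsupp b, z ∉ bad q p)
    (φ : VA →ₗ[ZMod 2] ZMod 2) (ψ : VB →ₗ[ZMod 2] ZMod 2) :
    ∀ᶠ n in (p : Filter ℕ), φ (a n) + ψ (b n) = 0 := by
  classical
  have hv := vanish q hq p a b hab hb
  obtain ⟨A, hA1, hA2⟩ := hq (zsupp b) (zsupp_countable _)
  let C : Set (FF × ℕ) := {x | φ (Finsupp.single x 1) = 1}
  have hC : ∀ d, φ d = PA C d := by
    intro d
    have : φ = PA C := by
      apply Finsupp.lhom_ext
      intro x r
      rcases zmod2_cases r with h | h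
      · rw [h]; simp
      · rw [h]
        simp only [PA, Finsupp.linearCombination_single, one_smul, evA]
        exact (ind_eq_one _).symm
    rw [this]
  let T : Set (FF × ℕ) := {x | ∃ z ∈ zsupp b, x.2 ∈ A z ∧ ψ (Finsupp.single (x.1, z) 1) = 1}
  have hT : ∀ n, ψ (b n) = PB q T (b n) := by
    intro n
    have h1 : ψ (b n) = Finsupp.linearCombination (ZMod 2) (fun x => ψ (Finsupp.single x 1)) (b n) := by
      conv_lhs => rw [← Finsupp.sum_single (b n)]
      rw [Finsupp.linearCombination_apply, Finsupp.sum, Finsupp.sum, map_sum]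
      apply Finset.sum_congr rfl
      intro x _
      rw [← map_smul]
      simp
    rw [h1]
    apply lc_congr
    intro x hx
    have hz : x.2 ∈ zsupp b := ⟨n, x, hx, rfl⟩
    simp only [evB]
    rw [← ind_eq_one (ψ (Finsupp.single x 1))]
    apply ind_congr
    constructor
    · intro h
      filter_upwards [hA1 x.2 hz] with m hm
      exact ⟨x.2, hz, hm, h⟩
    · intro h
      obtain ⟨m, hm1, hm2⟩ := Ultrafilter.nonempty_of_mem (inter_mem h (hA1 x.2 hz))
      obtain ⟨w, hw1, hw2, hw3⟩ := hm1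
      by_cases hwz : w = x.2
      · subst hwz
        exact hw3
      · exact absurd hm2 (Set.disjoint_left.1 (hA2 w hw1 x.2 hz hwz) hw2)
  filter_upwards [hv C, hv T, hab T] with n h1 h2 h3
  rw [hC, h1, hT, ← h3, h2, add_zero]

/-- richness of the coordinates -/
def Rich : Prop := ∀ (F' : Set FF), F'.Countable → ∀ C : Set (FF × ℕ), ∃ α : ℝ,
  (∀ f ∈ F', ∀ n, α ∉ (f n).1) ∧ (∀ f ∈ F', ∀ n, ((f, n) ∈ Cc α ↔ (f, n) ∈ C))

theorem notstrong (hq : Sep q) (hC : Rich Cc) (p : Ultrafilter ℕ) (hp : (p : Filter ℕ) ≤ cofinite)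
    (S : Set II) (hS : ∀ z ∈ S, z ∉ bad q p) :
    ∃ U : ℕ → Set (GS Cc q S), (∀ n, IsOpen (U n) ∧ (U n).Nonempty) ∧
      ∀ x : ℕ → GS Cc q S, (∀ n, x n ∈ U n) → ∀ y : GS Cc q S,
        ¬ Tendsto x (p : Filter ℕ) (𝓝 y) := by
  classical
  refine ⟨fun n => {y | y.1 (n : ℝ) = 1 ∧ ∀ i < n, y.1 (i : ℝ) = 0}, ?_, ?_⟩
  · intro n
    constructor
    · have h1 : {y : GS Cc q S | y.1 (n : ℝ) = 1 ∧ ∀ i < n, y.1 (i : ℝ) = 0} =
          {y : GS Cc q S | y.1 (n : ℝ) = 1} ∩ ⋂ i ∈ Finset.range n, {y : GS Cc q S | y.1 (i : ℝ) = 0} := by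
        ext y; simp
      have h2 : ∀ (α : ℝ) (c : ZMod 2), IsOpen {y : GS Cc q S | y.1 α = c} := by
        intro α c
        have : Continuous fun y : GS Cc q S => y.1 α :=
          (continuous_apply α).comp continuous_subtype_val
        exact (isOpen_discrete {c}).preimage this
      show IsOpen {y : GS Cc q S | y.1 (n : ℝ) = 1 ∧ ∀ i < n, y.1 (i : ℝ) = 0}
      rw [h1]
      exact (h2 _ _).inter (isOpen_biInter_finset fun i _ => h2 _ _)
    · let f : FF := fun _ => ((Finset.range (n + 1)).image (fun i : ℕ => (i : ℝ)), {(n : ℝ)})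
      refine ⟨⟨xg Cc (f, 0), xg_mem Cc q S _⟩, ?_, ?_⟩
      · have h1 : (n : ℝ) ∈ (f 0).1 := by
          simp [f]
        have h2 : (n : ℝ) ∈ (f 0).2 := by
          simp [f]
        simp only [xg, if_pos h1]
        exact ind_true h2
      · intro i hi
        have h1 : (i : ℝ) ∈ (f 0).1 := by
          simp [f]; omega
        have h2 : (i : ℝ) ∉ (f 0).2 := by
          simp [f]; omega
        simp only [xg, if_pos h1]
        exact ind_false h2
  · intro y hy g hg
    -- representations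
    have hrep : ∀ x : GS Cc q S, ∃ a : VA, ∃ b : VB, (∀ e ∈ b.support, e.2 ∈ S) ∧
        x.1 = LA Cc a + LB Cc q b := by
      rintro ⟨x, hx⟩
      obtain ⟨x1, h1, x2, h2, h3⟩ := Submodule.mem_sup.1 hx
      rw [Finsupp.mem_span_range_iff_exists_finsupp] at h1
      rw [Finsupp.mem_span_image_iff_linearCombination] at h2
      obtain ⟨a, ha⟩ := h1
      obtain ⟨b, hb, hb2⟩ := h2
      refine ⟨a, b, ?_, ?_⟩
      · intro e he
        exact hb he
      · show x = _
        rw [← h3, ← ha, ← hb2]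
        rfl
    choose a ha using fun n => hrep (y n)
    choose b hb1 hb2 using ha
    obtain ⟨a0, b0, hb01, hb02⟩ := hrep g
    -- coordinates of the limit
    have hcoord : ∀ α : ℝ, ∀ᶠ n in (p : Filter ℕ), (y n).1 α = g.1 α := by
      intro α
      have h1 : Tendsto (fun n => (y n).1 α) (p : Filter ℕ) (𝓝 (g.1 α)) := by
        have : Continuous fun y : GS Cc q S => y.1 α :=
          (continuous_apply α).comp continuous_subtype_val
        exact (this.tendsto g).comp hg
      have h2 : {g.1 α} ∈ 𝓝 (g.1 α) := (isOpen_discrete _).mem_nhds rfl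
      exact h1 h2
    have hg0 : ∀ i : ℕ, g.1 (i : ℝ) = 0 := by
      intro i
      have h1 : ∀ᶠ n in (p : Filter ℕ), i < n := by
        apply hp
        rw [Nat.cofinite_eq_atTop]
        exact eventually_gt_atTop i
      obtain ⟨n, h2, h3⟩ := ((hcoord i).and h1).exists
      rw [← h2]
      exact (hy n).2 i h3
    -- differences
    let a' : ℕ → VA := fun n => a n - a0
    let b' : ℕ → VB := fun n => b n - b0
    have hdiff : ∀ n, (y n).1 - g.1 = LA Cc (a' n) + LB Cc q (b' n) := by
      intro n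
      simp only [a', b', map_sub]
      rw [hb2 n, hb02]
      abel
    have hb' : ∀ n, ∀ e ∈ (b' n).support, e.2 ∈ S := by
      intro n e he
      have h1 := Finsupp.support_sub he
      rcases Finset.mem_union.1 h1 with h | h
      · exact hb1 n e h
      · exact hb01 e h
    -- linear independence
    have hli : LinearIndependent (ZMod 2) (fun n => (y n).1 - g.1) := by
      rw [linearIndependent_iff']
      intro s c hs
      by_contra hcon
      push Not at hcon
      have hne : (s.filter (fun i => c i ≠ 0)).Nonempty := by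
        obtain ⟨i, hi, hi2⟩ := hcon
        exact ⟨i, Finset.mem_filter.2 ⟨hi, hi2⟩⟩
      let m := (s.filter (fun i => c i ≠ 0)).min' hne
      have hm : m ∈ s ∧ c m ≠ 0 := Finset.mem_filter.1 (Finset.min'_mem _ hne)
      have h1 := congrFun hs (m : ℝ)
      rw [Finset.sum_apply] at h1
      rw [Finset.sum_eq_single m] at h1
      · simp only [Pi.smul_apply, Pi.sub_apply, Pi.zero_apply, smul_eq_mul, (hy m).1, hg0,
          sub_zero, mul_one] at h1
        exact hm.2 h1
      · intro i hi hne2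
        by_cases hc : c i = 0
        · simp [hc]
        · have h2 : m ≤ i := Finset.min'_le _ _ (Finset.mem_filter.2 ⟨hi, hc⟩)
          have h3 : m < i := lt_of_le_of_ne h2 (Ne.symm hne2)
          simp only [Pi.smul_apply, Pi.sub_apply, (hy i).2 m h3, hg0, sub_zero, smul_zero]
      · intro h; exact absurd hm.1 h
    obtain ⟨Θ, hΘ⟩ := Module.exists_dual_forall_apply_eq_one (s := Set.univ)
      ((linearIndepOn_univ_iff).2 hli)
    -- same limits
    have hsame : SameLim q p a' b' := by
      intro C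
      let F' : Set FF := (⋃ n, Prod.fst '' ((a' n).support : Set (FF × ℕ))) ∪
        (⋃ n, Prod.fst '' ((b' n).support : Set (FF × II)))
      have hF' : F'.Countable := by
        apply Set.Countable.union
        · exact Set.countable_iUnion fun n => ((a' n).support.finite_toSet.image _).countable
        · exact Set.countable_iUnion fun n => ((b' n).support.finite_toSet.image _).countable
      have hF1 : ∀ n, ∀ x ∈ (a' n).support, x.1 ∈ F' := by
        intro n x hx
        exact Or.inl (Set.mem_iUnion.2 ⟨n, x, hx, rfl⟩)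
      have hF2 : ∀ n, ∀ x ∈ (b' n).support, x.1 ∈ F' := by
        intro n x hx
        exact Or.inr (Set.mem_iUnion.2 ⟨n, x, hx, rfl⟩)
      obtain ⟨α, hα1, hα2⟩ := hC F' hF' C
      filter_upwards [hcoord α] with n hn
      have h1 : LA Cc (a' n) α + LB Cc q (b' n) α = 0 := by
        have := congrFun (hdiff n) α
        simp only [Pi.sub_apply, Pi.add_apply, hn, sub_self] at this
        exact this.symm
      rw [good_A Cc C (a' n) α (fun x hx => hα1 x.1 (hF1 n x hx) x.2)
          (fun x hx => hα2 x.1 (hF1 n x hx) x.2),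
        good_B Cc q C (b' n) α (fun x hx => hα1 x.1 (hF2 n x hx))
          (fun x hx => hα2 x.1 (hF2 n x hx))] at h1
      generalize PA C (a' n) = u at h1 ⊢
      generalize PB q C (b' n) = v at h1 ⊢
      revert u v
      decide
    have hz : ∀ z ∈ zsupp b', z ∉ bad q p := by
      rintro z ⟨n, x, hx, rfl⟩
      exact hS _ (hb' n x hx)
    have hfin := vanish_all q hq p a' b' hsame hz (Θ.comp (LA Cc)) (Θ.comp (LB Cc q))
    obtain ⟨n, hn⟩ := hfin.exists
    rw [LinearMap.comp_apply, LinearMap.comp_apply, ← map_add, ← hdiff n, hΘ n (Set.mem_univ _)] at hn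
    exact absurd hn (by decide)

end

theorem exists_rich : ∃ Cc : ℝ → Set (FF × ℕ), Rich Cc := by
  classical
  obtain ⟨enc⟩ := exists_enc
  let Cc : ℝ → Set (FF × ℕ) := fun α => {x | ∃ n, (enc α).1 n = x ∧ (enc α).2.1 n = true}
  refine ⟨Cc, ?_⟩
  intro F' hF' C
  -- enumerate F' × ℕ (add a point to make it nonempty)
  let f0 : FF := fun _ => (∅, ∅)
  have hE : (insert f0 F').Countable := hF'.insert f0
  obtain ⟨e, he⟩ := hE.exists_eq_range (Set.insert_nonempty _ _)
  let e' : ℕ → FF × ℕ := fun k => (e (Nat.unpair k).1, (Nat.unpair k).2)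
  have he' : ∀ f ∈ F', ∀ n, ∃ k, e' k = (f, n) := by
    intro f hf n
    have : f ∈ Set.range e := by rw [← he]; exact Or.inr hf
    obtain ⟨i, hi⟩ := this
    exact ⟨Nat.pair i n, by simp [e', hi]⟩
  let c : ℕ → Bool := fun k => decide (e' k ∈ C)
  let al : ℝ → ℝ := fun ξ => enc.symm (e', c, ξ)
  have hal : Function.Injective al := by
    intro ξ ξ' h
    have := enc.symm.injective h
    simpa using this
  let N : Set ℝ := ⋃ f ∈ F', ⋃ n, ((f n).1 : Set ℝ)
  have hN : N.Countable := by
    apply hF'.biUnion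
    intro f _
    exact Set.countable_iUnion fun n => (f n).1.finite_toSet.countable
  have hex : ∃ ξ, al ξ ∉ N := by
    by_contra hcon
    push Not at hcon
    have h1 : (Set.range al).Countable := hN.mono (by rintro _ ⟨ξ, rfl⟩; exact hcon ξ)
    have h2 : (Set.univ : Set ℝ).Countable := by
      rw [← Set.image_univ] at h1
      exact Set.countable_of_injective_of_countable_image hal.injOn h1
    exact Cardinal.not_countable_real h2
  obtain ⟨ξ, hξ⟩ := hex
  refine ⟨al ξ, ?_, ?_⟩
  · intro f hf n hmem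
    apply hξ
    simp only [N, Set.mem_iUnion]
    exact ⟨f, hf, n, hmem⟩
  · intro f hf n
    simp only [Cc, al, Equiv.apply_symm_apply, Set.mem_ofPred_eq, c, decide_eq_true_eq]
    constructor
    · rintro ⟨k, hk1, hk2⟩
      rw [← hk1]; exact hk2
    · intro h
      obtain ⟨k, hk⟩ := he' f hf n
      exact ⟨k, hk, by rw [hk]; exact h⟩

end Pool.Agent.Helper177.Grp
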