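import Mathlib

/-!
# The automorphism group of the rooted binary tree

`Om = ℕ → Bool` is the boundary of the tree, `agree n x y` says that `x` and `y` have the same
prefix of length `n`, and `W` is the group of all permutations of `Om` preserving all the relations
`agree n`.  The topology on `W` is that of pointwise convergence on the discrete set `Om`.
-/

set_option autoImplicit false

namespace Pool.Agent.Helper177.Tree

open Filter Topology

abbrev Om : Type := ℕ → Bool

/-- Same prefix of length `n`. -/
def agree (n : ℕ) (x y : Om) : Prop := ∀ i, i < n → x i = y i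

theorem agree_refl (n : ℕ) (x : Om) : agree n x x := fun _ _ => rfl

theorem agree.symm {n : ℕ} {x y : Om} (h : agree n x y) : agree n y x :=
  fun i hi => (h i hi).symm

theorem agree.trans {n : ℕ} {x y z : Om} (h : agree n x y) (h' : agree n y z) : agree n x z :=
  fun i hi => (h i hi).trans (h' i hi)

theorem agree.mono {m n : ℕ} (hmn : m ≤ n) {x y : Om} (h : agree n x y) : agree m x y :=
  fun i hi => h i (lt_of_lt_of_le hi hmn)

theorem eq_of_agree {x y : Om} (h : ∀ n, agree n x y) : x = y := by
  funext i
  exact h (i + 1) i (Nat.lt_succ_self i)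

/-- The group of automorphisms of the tree, as a subgroup of the permutations of the boundary. -/
def WS : Subgroup (Equiv.Perm Om) where
  carrier := {g | ∀ n x y, agree n x y ↔ agree n (g x) (g y)}
  mul_mem' := by
    intro a b ha hb n x y
    exact (hb n x y).trans (ha n _ _)
  one_mem' := by
    intro n x y
    exact Iff.rfl
  inv_mem' := by
    intro a ha n x y
    have := ha n (a⁻¹ x) (a⁻¹ y)
    simpa using this.symm

/-- The group. -/
def W : Type := WS

instance : Group W := inferInstanceAs (Group WS)

/-- The action on the boundary. -/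
def act (g : W) (x : Om) : Om := g.1 x

@[simp] theorem act_one (x : Om) : act 1 x = x := rfl

theorem act_mul (g h : W) (x : Om) : act (g * h) x = act g (act h x) := rfl

@[simp] theorem act_inv_act (g : W) (x : Om) : act g⁻¹ (act g x) = x := by
  rw [← act_mul]; simp

@[simp] theorem act_act_inv (g : W) (x : Om) : act g (act g⁻¹ x) = x := by
  rw [← act_mul]; simp

theorem act_ext {g h : W} (H : ∀ x, act g x = act h x) : g = h := by
  apply Subtype.ext
  apply Equiv.ext
  exact H

theorem act_eq_iff (g : W) (x y : Om) : act g x = y ↔ x = act g⁻¹ y := by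
  constructor
  · rintro rfl; simp
  · rintro rfl; simp

theorem agree_act (g : W) (n : ℕ) (x y : Om) : agree n (act g x) (act g y) ↔ agree n x y :=
  (g.2 n x y).symm

/-- Build an element of `W` from two mutually inverse maps preserving the relations. -/
def mkW (f f' : Om → Om) (h1 : ∀ x, f' (f x) = x) (h2 : ∀ x, f (f' x) = x)
    (h3 : ∀ n x y, agree n x y → agree n (f x) (f y))
    (h4 : ∀ n x y, agree n x y → agree n (f' x) (f' y)) : W :=
  ⟨⟨f, f', h1, h2⟩, by
    intro n x y
    constructor
    · exact h3 n x y
    · intro h
      have := h4 n _ _ h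
      simpa [h1] using this⟩

@[simp] theorem act_mkW (f f' : Om → Om) (h1 h2 h3 h4) (x : Om) :
    act (mkW f f' h1 h2 h3 h4) x = f x := rfl

@[simp] theorem act_mkW_inv (f f' : Om → Om) (h1 h2 h3 h4) (x : Om) :
    act (mkW f f' h1 h2 h3 h4)⁻¹ x = f' x := rfl

/-- Translation by `c`. -/
def tr (c : Om) : W :=
  mkW (fun x i => xor (x i) (c i)) (fun x i => xor (x i) (c i))
    (by intro x; funext i; simp)
    (by intro x; funext i; simp)
    (by intro n x y h i hi; simp only; rw [h i hi])
    (by intro n x y h i hi; simp only; rw [h i hi])

theorem act_tr (c x : Om) (i : ℕ) : act (tr c) x i = xor (x i) (c i) := rfl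

/-- The level stabilizer. -/
def Stab (n : ℕ) (g : W) : Prop := ∀ x, agree n (act g x) x

theorem Stab.inv {n : ℕ} {g : W} (h : Stab n g) : Stab n g⁻¹ := by
  intro x
  have := h (act g⁻¹ x)
  simpa using this.symm

/-- A set which depends only on the first `n` coordinates. -/
def Det (n : ℕ) (A : Om → Prop) : Prop := ∀ x y, agree n x y → (A x ↔ A y)

open Classical in
/-- Cut an element of the level stabilizer down to a set `A` determined by the first `n`
coordinates. -/
noncomputable def cut {n : ℕ} (g : W) (hg : Stab n g) (A : Om → Prop) (hA : Det n A) : W :=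
  mkW (fun x => if A x then act g x else x) (fun x => if A x then act g⁻¹ x else x)
    (by
      intro x
      by_cases h : A x
      · have h' : A (act g x) := (hA _ _ (hg x)).mpr h
        simp [h, h']
      · simp [h])
    (by
      intro x
      by_cases h : A x
      · have h' : A (act g⁻¹ x) := (hA _ _ (hg.inv x)).mpr h
        simp [h, h']
      · simp [h])
    (by
      intro m x y hxy
      by_cases hmn : m ≤ n
      · have e : ∀ z, agree m (if A z then act g z else z) z := by
          intro z
          by_cases h : A z
          · simp only [h, if_true]; exact (hg z).mono hmn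
          · simp only [h, if_false]; exact agree_refl _ _
        exact ((e x).trans hxy).trans (e y).symm
      · have hx : agree n x y := hxy.mono (by omega)
        by_cases h : A x
        · have h' : A y := (hA _ _ hx).mp h
          simp only [h, h', if_true]
          exact (agree_act g m x y).mpr hxy
        · have h' : ¬ A y := fun h' => h ((hA _ _ hx).mpr h')
          simp only [h, h', if_false]
          exact hxy)
    (by
      intro m x y hxy
      by_cases hmn : m ≤ n
      · have e : ∀ z, agree m (if A z then act g⁻¹ z else z) z := by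
          intro z
          by_cases h : A z
          · simp only [h, if_true]; exact (hg.inv z).mono hmn
          · simp only [h, if_false]; exact agree_refl _ _
        exact ((e x).trans hxy).trans (e y).symm
      · have hx : agree n x y := hxy.mono (by omega)
        by_cases h : A x
        · have h' : A y := (hA _ _ hx).mp h
          simp only [h, h', if_true]
          exact (agree_act g⁻¹ m x y).mpr hxy
        · have h' : ¬ A y := fun h' => h ((hA _ _ hx).mpr h')
          simp only [h, h', if_false]
          exact hxy)

theorem act_cut_pos {n : ℕ} (g : W) (hg : Stab n g) (A : Om → Prop) (hA : Det n A) {x : Om}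
    (h : A x) : act (cut g hg A hA) x = act g x := by
  simp [cut, h]

theorem act_cut_neg {n : ℕ} (g : W) (hg : Stab n g) (A : Om → Prop) (hA : Det n A) {x : Om}
    (h : ¬ A x) : act (cut g hg A hA) x = x := by
  simp [cut, h]

/-- The flip of the coordinate `n`. -/
def flip (n : ℕ) : W := tr (fun i => decide (i = n))

theorem flip_stab (n : ℕ) : Stab n (flip n) := by
  intro x i hi
  have : i ≠ n := by omega
  simp [flip, act_tr, this]

theorem flip_ne (n : ℕ) (x : Om) : act (flip n) x n ≠ x n := by
  simp [flip, act_tr]

theorem flip_of_ne (n : ℕ) (x : Om) {i : ℕ} (hi : i ≠ n) : act (flip n) x i = x i := by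
  simp [flip, act_tr, hi]

/-- Finite sets are separated at some level. -/
theorem exists_sep (F : Finset Om) : ∃ n, ∀ x ∈ F, ∀ y ∈ F, agree n x y → x = y := by
  have h : ∀ᶠ n in atTop, ∀ x ∈ F, ∀ y ∈ F, agree n x y → x = y := by
    rw [eventually_all_finset]
    intro x _
    rw [eventually_all_finset]
    intro y _
    by_cases hxy : x = y
    · exact Eventually.of_forall fun _ _ => hxy
    · obtain ⟨i, hi⟩ := Function.ne_iff.mp hxy
      filter_upwards [eventually_gt_atTop i] with n hn h
      exact absurd (h i hn) hi
  exact h.exists

/-- `g` fixes `F` pointwise. -/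
def Fixes (F : Finset Om) (g : W) : Prop := ∀ x ∈ F, act g x = x

/-- `g` fixes some point of `E`. -/
def Fx (E : Finset Om) : Set W := {g | ∃ x ∈ E, act g x = x}

/-- The product of two disjoint point stabilizers contains a level stabilizer. -/
theorem prod_stab (F : Finset Om) (g : W) (hg : ∀ x ∈ F, act g x ∉ F) :
    ∃ N, ∀ s, Stab N s → ∃ a b, Fixes F a ∧ Fixes F b ∧ s = a * g * b * g⁻¹ := by
  classical
  obtain ⟨N, hN⟩ := exists_sep (F ∪ F.image (act g))
  refine ⟨N, fun s hs => ?_⟩
  let A : Om → Prop := fun y => ∃ x ∈ F, agree N y x
  have hA : Det N A := by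
    intro x y hxy
    constructor
    · rintro ⟨z, hz, h⟩; exact ⟨z, hz, hxy.symm.trans h⟩
    · rintro ⟨z, hz, h⟩; exact ⟨z, hz, hxy.trans h⟩
  have hA' : Det N (fun y => ¬ A y) := fun x y hxy => not_congr (hA x y hxy)
  let b := cut s hs A hA
  let a := cut s hs (fun y => ¬ A y) hA'
  have hgF : ∀ x ∈ F, ¬ A (act g x) := by
    rintro x hx ⟨z, hz, h⟩
    have h1 := hN (act g x) (Finset.mem_union_right _ (Finset.mem_image_of_mem _ hx)) z
      (Finset.mem_union_left _ hz) h
    exact hg x hx (h1 ▸ hz)
  refine ⟨a, g⁻¹ * b * g, ?_, ?_, ?_⟩
  · intro x hx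
    exact act_cut_neg s hs _ hA' (by push Not; exact ⟨x, hx, agree_refl _ _⟩)
  · intro x hx
    rw [act_mul, act_mul, act_cut_neg s hs A hA (hgF x hx), act_inv_act]
  · have e : s = a * b := by
      apply act_ext
      intro y
      rw [act_mul]
      by_cases h : A y
      · rw [act_cut_pos s hs A hA h]
        have h' : A (act s y) := (hA _ _ (hs y)).mpr h
        exact (act_cut_neg s hs _ hA' (by push Not; exact h')).symm
      · rw [act_cut_neg s hs A hA h]
        exact (act_cut_pos s hs _ hA' h).symm
    rw [e]; group

end Pool.Agent.Helper177.Tree
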