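import Pool.Agent.Helper177.Tree

/-!
# Topologies on the automorphism group of the binary tree

The dichotomy for group topologies coarser than the topology of pointwise convergence.
-/

set_option autoImplicit false

namespace Pool.Agent.Helper177.Tree

open Filter Topology

/-- The filter of neighbourhoods of `1` for the pointwise topology: generated by the pointwise
stabilizers of finite sets. -/
def fixFilter : Filter W where
  sets := {U | ∃ F : Finset Om, ∀ g, Fixes F g → g ∈ U}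
  univ_sets := ⟨∅, fun _ _ => trivial⟩
  sets_of_superset := by
    rintro U V ⟨F, hF⟩ h
    exact ⟨F, fun g hg => h (hF g hg)⟩
  inter_sets := by
    classical
    rintro U V ⟨F, hF⟩ ⟨E, hE⟩
    refine ⟨F ∪ E, fun g hg => ⟨hF g fun x hx => hg x (Finset.mem_union_left _ hx),
      hE g fun x hx => hg x (Finset.mem_union_right _ hx)⟩⟩

theorem mem_fixFilter {U : Set W} : U ∈ fixFilter ↔ ∃ F : Finset Om, ∀ g, Fixes F g → g ∈ U :=
  Iff.rfl

/-- The properties of the filter of neighbourhoods of `1` in a Hausdorff group topology coarser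
than the pointwise topology that we use. -/
structure Nice (N : Filter W) : Prop where
  split : ∀ U ∈ N, ∃ V ∈ N, (∀ g ∈ V, g⁻¹ ∈ V) ∧
    ∀ a ∈ V, ∀ b ∈ V, ∀ c ∈ V, ∀ d ∈ V, a * b * c * d ∈ U
  conj : ∀ U ∈ N, ∀ w : W, {g | w⁻¹ * g * w ∈ U} ∈ N
  one : ∀ U ∈ N, (1 : W) ∈ U
  le : fixFilter ≤ N
  stab : ∀ n, {g | Stab n g} ∈ N

theorem one_point_of_fx {N : Filter W} (hN : Nice N) {F : Finset Om} (hF : Fx F ∈ N) :
    ∃ x, {g | act g x = x} ∈ N := by
  classical
  have hex : ∃ m, ∃ E : Finset Om, E.card = m ∧ Fx E ∈ N := ⟨_, F, rfl, hF⟩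
  obtain ⟨E, hEc, hE⟩ := Nat.find_spec hex
  have hmin : ∀ E' : Finset Om, E'.card < E.card → Fx E' ∉ N := by
    intro E' h1 h2
    rw [hEc] at h1
    exact Nat.find_min hex h1 ⟨E', rfl, h2⟩
  have hne : E.Nonempty := by
    rw [Finset.nonempty_iff_ne_empty]
    rintro rfl
    obtain ⟨x, hx, _⟩ := hN.one _ hE
    simp at hx
  obtain ⟨ξ, hξ⟩ := hne
  by_cases hcard : E.card = 1
  · obtain ⟨x, rfl⟩ := Finset.card_eq_one.mp hcard
    refine ⟨x, ?_⟩
    filter_upwards [hE] with g hg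
    obtain ⟨y, hy, h⟩ := hg
    rw [Finset.mem_singleton] at hy
    subst hy
    exact h
  · exfalso
    have hpos : 0 < E.card := Finset.card_pos.mpr ⟨ξ, hξ⟩
    have h1 : Fx (E.erase ξ) ∉ N := hmin _ (by rw [Finset.card_erase_of_mem hξ]; omega)
    have h2 : Fx {ξ} ∉ N := hmin _ (by rw [Finset.card_singleton]; omega)
    obtain ⟨O, hO, hOinv, hO4⟩ := hN.split _ hE
    obtain ⟨F0, hF0⟩ := mem_fixFilter.mp (hN.le hO)
    obtain ⟨n, hn⟩ := exists_sep (E ∪ F0)
    have hgex : ∃ g ∈ O, g ∉ Fx (E.erase ξ) := by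
      by_contra hcon
      push Not at hcon
      exact h1 (mem_of_superset hO hcon)
    have hhex : ∃ h ∈ O ∩ {g | Stab n g}, h ∉ Fx {ξ} := by
      by_contra hcon
      push Not at hcon
      exact h2 (mem_of_superset (inter_mem hO (hN.stab n)) hcon)
    obtain ⟨g, hgO, hg⟩ := hgex
    obtain ⟨h, ⟨hhO, hhn⟩, hh⟩ := hhex
    have hg' : ∀ ζ ∈ E, ζ ≠ ξ → act g ζ ≠ ζ := by
      intro ζ hζ hne heq
      exact hg ⟨ζ, Finset.mem_erase.mpr ⟨hne, hζ⟩, heq⟩
    have hh' : act h ξ ≠ ξ := by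
      intro heq
      exact hh ⟨ξ, Finset.mem_singleton_self _, heq⟩
    let D : Finset Om := (E.filter fun ζ => act h ζ ≠ ζ).image (act h)
    have hD : ∀ d ∈ D, d ∉ E ∪ F0 := by
      intro d hd hdP
      obtain ⟨ζ, hζ, rfl⟩ := Finset.mem_image.mp hd
      rw [Finset.mem_filter] at hζ
      exact hζ.2 (hn _ hdP _ (Finset.mem_union_left _ hζ.1) (hhn ζ))
    obtain ⟨M, hM⟩ := exists_sep ((E ∪ F0) ∪ D ∪ E.image (act g⁻¹))
    let A : Om → Prop := fun y => ∃ d ∈ D, agree M y d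
    have hA : Det M A := by
      intro x y hxy
      constructor
      · rintro ⟨z, hz, h⟩; exact ⟨z, hz, hxy.symm.trans h⟩
      · rintro ⟨z, hz, h⟩; exact ⟨z, hz, hxy.trans h⟩
    let x := cut (flip M) (flip_stab M) A hA
    have hxP : ∀ z ∈ E ∪ F0, act x z = z := by
      intro z hz
      refine act_cut_neg _ _ _ _ ?_
      rintro ⟨d, hd, hzd⟩
      have : z = d := hM z (Finset.mem_union_left _ (Finset.mem_union_left _ hz)) d
        (Finset.mem_union_left _ (Finset.mem_union_right _ hd)) hzd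
      exact hD d hd (this ▸ hz)
    have hxinv : ∀ z ∈ E, act x⁻¹ z = z := by
      intro z hz
      have := hxP z (Finset.mem_union_left _ hz)
      rw [act_eq_iff] at this
      exact this.symm
    have hxO : x ∈ O := hF0 x fun z hz => hxP z (Finset.mem_union_right _ hz)
    have hp : g * x * h * x⁻¹ ∈ Fx E := hO4 g hgO x hxO h hhO x⁻¹ (hOinv x hxO)
    obtain ⟨ζ, hζ, hpζ⟩ := hp
    rw [act_mul, act_mul, act_mul, hxinv ζ hζ] at hpζ
    by_cases hhζ : act h ζ = ζ
    · rw [hhζ, hxP ζ (Finset.mem_union_left _ hζ)] at hpζ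
      refine hg' ζ hζ ?_ hpζ
      rintro rfl
      exact hh' hhζ
    · have hdD : act h ζ ∈ D :=
        Finset.mem_image_of_mem _ (Finset.mem_filter.mpr ⟨hζ, hhζ⟩)
      have hAd : A (act h ζ) := ⟨_, hdD, agree_refl _ _⟩
      have e1 : act x (act h ζ) = act (flip M) (act h ζ) := act_cut_pos _ _ _ _ hAd
      rw [e1, act_eq_iff] at hpζ
      have e2 : agree M (act g⁻¹ ζ) (act h ζ) := by
        rw [← hpζ]
        exact flip_stab M _
      have e3 : act g⁻¹ ζ = act h ζ :=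
        hM _ (Finset.mem_union_right _ (Finset.mem_image_of_mem _ hζ)) _
          (Finset.mem_union_left _ (Finset.mem_union_right _ hdD)) e2
      rw [e3] at hpζ
      exact flip_ne M (act h ζ) (congrFun hpζ M)

theorem dichotomy {N : Filter W} (hN : Nice N) :
    (∀ U ∈ N, ∃ n, ∀ g, Stab n g → g ∈ U) ∨ ∀ x, {g | act g x = x} ∈ N := by
  classical
  by_cases hcase : ∀ U ∈ N, ∃ n, ∀ g, Stab n g → g ∈ U
  · exact Or.inl hcase
  right
  push Not at hcase
  obtain ⟨U, hU, hUn⟩ := hcase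
  obtain ⟨V, hV, hVinv, hV4⟩ := hN.split U hU
  obtain ⟨F, hF⟩ := mem_fixFilter.mp (hN.le hV)
  obtain ⟨n, hn⟩ := exists_sep F
  have hFx : Fx F ∈ N := by
    filter_upwards [hV, hN.stab n] with g hgV hgn
    by_contra hcon
    have hmove : ∀ x ∈ F, act g x ∉ F := by
      intro x hx hgx
      exact hcon ⟨x, hx, hn _ hgx _ hx (hgn x)⟩
    obtain ⟨M, hM⟩ := prod_stab F g hmove
    obtain ⟨s, hs, hsU⟩ := hUn M
    obtain ⟨a, b, ha, hb, rfl⟩ := hM s hs
    exact hsU (hV4 a (hF a ha) g hgV b (hF b hb) g⁻¹ (hVinv g hgV))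
  obtain ⟨ξ, hξ⟩ := one_point_of_fx hN hFx
  intro η
  let w : W := tr fun i => xor (ξ i) (η i)
  have hw : act w ξ = η := by
    funext i
    rw [act_tr]
    cases ξ i <;> cases η i <;> rfl
  filter_upwards [hN.conj _ hξ w] with g hg
  have hg' : act (w⁻¹ * g * w) ξ = ξ := hg
  rw [act_mul, act_mul, hw] at hg'
  rw [← act_act_inv w (act g η), hg', hw]

end Pool.Agent.Helper177.Tree
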