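import Pool.Agent.Helper177.Tree2

/-!
# The topological group `W` is `i:TG`-closed, maximally almost periodic and not compact
-/

set_option autoImplicit false

namespace Pool.Agent.Helper177.Tree

open Filter Topology

/-- The topology of pointwise convergence on the discrete boundary. -/
instance topW : TopologicalSpace W :=
  TopologicalSpace.generateFrom {s | ∃ x y, s = {g | act g x = y}}

theorem isOpen_basic (x y : Om) : IsOpen {g : W | act g x = y} :=
  TopologicalSpace.isOpen_generateFrom_of_mem ⟨x, y, rfl⟩

instance : IsTopologicalGroup W where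
  continuous_mul := by
    refine continuous_generateFrom_iff.mpr ?_
    rintro _ ⟨x, y, rfl⟩
    have : (fun p : W × W => p.1 * p.2) ⁻¹' {g | act g x = y} =
        ⋃ z, {g : W | act g z = y} ×ˢ {h : W | act h x = z} := by
      ext ⟨g, h⟩
      simp [act_mul]
    rw [this]
    exact isOpen_iUnion fun z => (isOpen_basic z y).prod (isOpen_basic x z)
  continuous_inv := by
    refine continuous_generateFrom_iff.mpr ?_
    rintro _ ⟨x, y, rfl⟩
    have : (fun g : W => g⁻¹) ⁻¹' {g | act g x = y} = {g : W | act g y = x} := by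
      ext g
      simp only [Set.mem_preimage, Set.mem_ofPred_eq]
      rw [act_eq_iff g y x]
      exact eq_comm
    rw [this]
    exact isOpen_basic y x

theorem exists_act_ne {g h : W} (hne : g ≠ h) : ∃ x, act g x ≠ act h x := by
  by_contra hcon
  push Not at hcon
  exact hne (act_ext hcon)

instance : T2Space W where
  t2 := by
    intro g h hne
    obtain ⟨x, hx⟩ := exists_act_ne hne
    refine ⟨_, _, isOpen_basic x (act g x), isOpen_basic x (act h x), rfl, rfl, ?_⟩
    rw [Set.disjoint_left]
    intro k hk hk'
    exact hx (Eq.trans (Eq.symm hk) hk')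

/-- A group element moving `x` to `y`. -/
theorem act_tr_xor (x y : Om) : act (tr fun i => xor (x i) (y i)) x = y := by
  funext i
  rw [act_tr]
  cases x i <;> cases y i <;> rfl

theorem not_compact : ¬ CompactSpace W := by
  intro hc
  let x : Om := fun _ => false
  obtain ⟨t, ht⟩ := isCompact_univ.elim_finite_subcover (fun y : Om => {g : W | act g x = y})
    (fun y => isOpen_basic x y) (fun g _ => Set.mem_iUnion.mpr ⟨act g x, rfl⟩)
  obtain ⟨y, hy⟩ := Infinite.exists_notMem_finset t
  have h1 := ht (Set.mem_univ (tr fun i => xor (x i) (y i)))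
  simp only [Set.mem_iUnion] at h1
  obtain ⟨z, hz, h2⟩ := h1
  have h3 : act (tr fun i => xor (x i) (y i)) x = z := h2
  rw [act_tr_xor] at h3
  exact hy (h3 ▸ hz)

/-- Ultralimits exist in the group for the convergence of all the finite prefixes. -/
theorem ultralimit (U : Ultrafilter W) :
    ∃ w : W, ∀ x n, ∀ᶠ g in (U : Filter W), agree n (act g x) (act w x) := by
  have key : ∀ (φ : W → Om), ∃ z : Om, ∀ n, ∀ᶠ g in (U : Filter W), agree n (φ g) z := by
    intro φ
    have h1 : ∀ i, ∃ b : Bool, ∀ᶠ g in (U : Filter W), φ g i = b := by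
      intro i
      rcases U.em (fun g => φ g i = true) with h | h
      · exact ⟨true, h⟩
      · exact ⟨false, h.mono fun g hg => by simpa using hg⟩
    choose z hz using h1
    refine ⟨z, fun n => ?_⟩
    have : ∀ᶠ g in (U : Filter W), ∀ i ∈ Finset.range n, φ g i = z i := by
      rw [eventually_all_finset]
      exact fun i _ => hz i
    exact this.mono fun g hg i hi => hg i (Finset.mem_range.mpr hi)
  choose L hL using fun x : Om => key fun g => act g x
  choose L' hL' using fun x : Om => key fun g => act g⁻¹ x
  have h1 : ∀ x, L' (L x) = x := by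
    intro x
    apply eq_of_agree
    intro n
    obtain ⟨g, hg1, hg2⟩ := ((hL x n).and (hL' (L x) n)).exists
    have := (agree_act g⁻¹ n _ _).mpr hg1
    rw [act_inv_act] at this
    exact hg2.symm.trans this.symm
  have h2 : ∀ x, L (L' x) = x := by
    intro x
    apply eq_of_agree
    intro n
    obtain ⟨g, hg1, hg2⟩ := ((hL' x n).and (hL (L' x) n)).exists
    have := (agree_act g n _ _).mpr hg1
    rw [act_act_inv] at this
    exact hg2.symm.trans this.symm
  have h3 : ∀ n x y, agree n x y → agree n (L x) (L y) := by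
    intro n x y hxy
    obtain ⟨g, hg1, hg2⟩ := ((hL x n).and (hL y n)).exists
    exact (hg1.symm.trans ((agree_act g n x y).mpr hxy)).trans hg2
  have h4 : ∀ n x y, agree n x y → agree n (L' x) (L' y) := by
    intro n x y hxy
    obtain ⟨g, hg1, hg2⟩ := ((hL' x n).and (hL' y n)).exists
    exact (hg1.symm.trans ((agree_act g⁻¹ n x y).mpr hxy)).trans hg2
  exact ⟨mkW L L' h1 h2 h3 h4, hL⟩

/-- Extension of a finite prefix by zeros. -/
def ext {n : ℕ} (p : Fin n → Bool) : Om := fun i => if h : i < n then p ⟨i, h⟩ else false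

theorem agree_ext (n : ℕ) (x : Om) : agree n x (ext fun i : Fin n => x i) := by
  intro i hi
  simp [ext, hi]

theorem agree_of_reps {n : ℕ} {g h : W}
    (H : ∀ p : Fin n → Bool, agree n (act g (ext p)) (act h (ext p))) (x : Om) :
    agree n (act g x) (act h x) :=
  (((agree_act g n _ _).mpr (agree_ext n x)).trans (H _)).trans
    ((agree_act h n _ _).mpr (agree_ext n x)).symm

theorem ultralimit_stab (U : Ultrafilter W) (w : W)
    (hw : ∀ x n, ∀ᶠ g in (U : Filter W), agree n (act g x) (act w x)) (n : ℕ) :
    ∀ᶠ g in (U : Filter W), Stab n (w⁻¹ * g) := by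
  have : ∀ᶠ g in (U : Filter W), ∀ p : Fin n → Bool,
      agree n (act g (ext p)) (act w (ext p)) := by
    rw [eventually_all]
    exact fun p => hw _ n
  refine this.mono fun g hg x => ?_
  have h1 := (agree_act w⁻¹ n _ _).mpr (agree_of_reps hg x)
  rw [act_inv_act] at h1
  exact h1

theorem fixFilter_le : fixFilter ≤ 𝓝 (1 : W) := by
  rw [TopologicalSpace.nhds_generateFrom]
  refine le_iInf₂ ?_
  rintro _ ⟨h1, x, y, rfl⟩
  have hxy : act 1 x = y := h1
  rw [act_one] at hxy
  subst hxy
  rw [le_principal_iff]
  exact ⟨{x}, fun g hg => hg x (Finset.mem_singleton_self x)⟩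

section coarser

variable {Y : Type} [Group Y] [TopologicalSpace Y] [IsTopologicalGroup Y] [T2Space Y]
  (f : W →* Y)

theorem stab_one (hinj : Function.Injective f) (n : ℕ) (y : Om) :
    {g : W | agree n (act g y) y} ∈ comap f (𝓝 1) := by
  let A : Om → Prop := fun x => agree n x y
  have hA : Det n A := fun a b hab => ⟨fun h => hab.symm.trans h, fun h => hab.trans h⟩
  let A' : Om → Prop := fun x => agree n x y ∧ x n = false
  have hA' : Det (n + 1) A' := by
    intro a b hab
    have h1 : agree n a b := hab.mono (Nat.le_succ n)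
    have h2 : a n = b n := hab n (Nat.lt_succ_self n)
    show agree n a y ∧ a n = false ↔ agree n b y ∧ b n = false
    rw [h2]
    exact and_congr_left fun _ => hA a b h1
  let h := cut (flip n) (flip_stab n) A hA
  let k := cut (flip (n + 1)) (flip_stab (n + 1)) A' hA'
  have hne : h * k ≠ k * h := by
    intro heq
    let z : Om := fun i => if i = n then false else y i
    have hzA : A z := by
      intro i hi
      have : i ≠ n := by omega
      simp [z, this]
    have hzn : z n = false := by simp [z]
    have hkz : act k z = act (flip (n + 1)) z := act_cut_pos _ _ _ _ ⟨hzA, hzn⟩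
    have hAkz : A (act (flip (n + 1)) z) :=
      ((flip_stab (n + 1) z).mono (Nat.le_succ n)).trans hzA
    have hhkz : act h (act k z) = act (flip n) (act (flip (n + 1)) z) := by
      rw [hkz]; exact act_cut_pos _ _ _ _ hAkz
    have hhz : act h z = act (flip n) z := act_cut_pos _ _ _ _ hzA
    have hnA' : ¬ A' (act (flip n) z) := by
      rintro ⟨_, h2⟩
      exact flip_ne n z (h2.trans hzn.symm)
    have hkhz : act k (act h z) = act (flip n) z := by
      rw [hhz]; exact act_cut_neg _ _ _ _ hnA'
    have e := congrArg (fun u => act u z (n + 1)) heq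
    simp only [act_mul] at e
    rw [hhkz, hkhz, flip_of_ne n _ (Nat.succ_ne_self n), flip_of_ne n _ (Nat.succ_ne_self n)] at e
    exact flip_ne (n + 1) z e
  let O : Set Y := {u | u * f h * u⁻¹ * f k ≠ f k * (u * f h * u⁻¹)}
  have hO : IsOpen O := by
    apply isOpen_ne_fun <;> fun_prop
  have h1O : (1 : Y) ∈ O := by
    show (1 : Y) * f h * (1 : Y)⁻¹ * f k ≠ f k * ((1 : Y) * f h * (1 : Y)⁻¹)
    simp only [one_mul, inv_one, mul_one, ← map_mul]
    exact fun he => hne (hinj he)
  refine ⟨O, hO.mem_nhds h1O, ?_⟩
  intro g hg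
  by_contra hcon
  have hcon' : ¬ agree n (act g y) y := hcon
  apply hg
  have hc : ∀ z, A z → act (g * h * g⁻¹) z = z := by
    intro z hz
    rw [act_mul, act_mul]
    have : ¬ A (act g⁻¹ z) := by
      intro h2
      have h3 := (agree_act g n _ _).mpr h2
      rw [act_act_inv] at h3
      exact hcon' (h3.symm.trans hz)
    rw [act_cut_neg _ _ _ _ this, act_act_inv]
  have hkA : ∀ z, ¬ A z → act k z = z := fun z hz => act_cut_neg _ _ _ _ fun h2 => hz h2.1
  have hcomm : (g * h * g⁻¹) * k = k * (g * h * g⁻¹) := by
    apply act_ext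
    intro z
    rw [act_mul (g * h * g⁻¹) k, act_mul k (g * h * g⁻¹)]
    by_cases hz : A z
    · have hkz : A (act k z) := by
        by_cases hz' : A' z
        · rw [act_cut_pos _ _ _ _ hz']
          exact ((flip_stab (n + 1) z).mono (Nat.le_succ n)).trans hz
        · rw [act_cut_neg _ _ _ _ hz']
          exact hz
      rw [hc _ hkz, hc _ hz]
    · have h2 : ¬ A (act (g * h * g⁻¹) z) := by
        intro h3
        have h4 := hc _ h3
        have h5 : act (g * h * g⁻¹) z = z := by
          have := congrArg (act (g * h * g⁻¹)⁻¹) h4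
          rwa [act_inv_act, act_inv_act] at this
        exact hz (h5 ▸ h3)
      rw [hkA z hz, hkA _ h2]
  have := congrArg f hcomm
  simpa only [map_mul, map_inv] using this

theorem nice_comap (hf : Continuous f) (hinj : Function.Injective f) :
    Nice (comap f (𝓝 1)) where
  split := by
    rintro U ⟨O, hO, hOU⟩
    obtain ⟨V, hV, hV4⟩ := exists_nhds_one_split4 hO
    have hVi : V⁻¹ ∈ 𝓝 (1 : Y) := inv_mem_nhds_one Y hV
    refine ⟨f ⁻¹' (V ∩ V⁻¹), preimage_mem_comap (inter_mem hV hVi), ?_, ?_⟩
    · rintro g ⟨h1, h2⟩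
      refine ⟨?_, ?_⟩
      · simpa using h2
      · simpa using h1
    · intro a ha b hb c hc d hd
      apply hOU
      show f (a * b * c * d) ∈ O
      rw [map_mul, map_mul, map_mul]
      exact hV4 ha.1 hb.1 hc.1 hd.1
  conj := by
    rintro U ⟨O, hO, hOU⟩ w
    have hcont : Continuous fun y : Y => (f w)⁻¹ * y * f w := by fun_prop
    have h1 : (fun y : Y => (f w)⁻¹ * y * f w) ⁻¹' O ∈ 𝓝 (1 : Y) := by
      apply hcont.continuousAt
      simpa using hO
    refine ⟨_, h1, ?_⟩
    intro g hg
    apply hOU
    show f (w⁻¹ * g * w) ∈ O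
    simpa using hg
  one := by
    rintro U ⟨O, hO, hOU⟩
    apply hOU
    show f 1 ∈ O
    rw [map_one]
    exact mem_of_mem_nhds hO
  le := by
    refine fixFilter_le.trans ?_
    rw [← tendsto_iff_comap]
    have := hf.tendsto (1 : W)
    rwa [map_one] at this
  stab := by
    intro n
    have h1 : ∀ p : Fin n → Bool, {g : W | agree n (act g (ext p)) (ext p)} ∈ comap f (𝓝 1) :=
      fun p => stab_one f hinj n (ext p)
    have h2 := iInter_mem.mpr h1
    refine mem_of_superset h2 ?_
    intro g hg x
    rw [Set.mem_iInter] at hg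
    exact agree_of_reps (g := g) (h := 1) hg x

theorem closed_range (hf : Continuous f) (hinj : Function.Injective f) :
    IsClosed (Set.range f) := by
  refine isClosed_of_closure_subset ?_
  intro y hy
  obtain ⟨u, hu, huy⟩ := mem_closure_iff_ultrafilter.mp hy
  let U : Ultrafilter W := u.comap hinj hu
  have hUy : Tendsto f U (𝓝 y) := by
    have : Tendsto f (comap f (u : Filter Y)) u := tendsto_comap
    exact this.mono_right huy
  obtain ⟨w, hw⟩ := ultralimit U
  have hconv : Tendsto f U (𝓝 (f w)) := by
    rcases dichotomy (nice_comap f hf hinj) with hA | hB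
    · intro O hO
      have hcont : Continuous fun z : Y => f w * z := by fun_prop
      have h1 : (fun z : Y => f w * z) ⁻¹' O ∈ 𝓝 (1 : Y) := by
        apply hcont.continuousAt
        simpa using hO
      obtain ⟨n, hn⟩ := hA _ (preimage_mem_comap h1)
      have h2 := ultralimit_stab U w hw n
      rw [mem_map]
      refine mem_of_superset h2 ?_
      intro g hg
      have h3 := hn _ hg
      simpa using h3
    · have hle : (U : Filter W) ≤ 𝓝 w := by
        rw [TopologicalSpace.nhds_generateFrom]
        refine le_iInf₂ ?_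
        rintro _ ⟨h1, x, z, rfl⟩
        have hxz : act w x = z := h1
        subst hxz
        rw [le_principal_iff]
        obtain ⟨O, hO, hOx⟩ := hB x
        have hcont : Continuous fun p : Y × Y => p.1⁻¹ * p.2 := by fun_prop
        have h2 : (fun p : Y × Y => p.1⁻¹ * p.2) ⁻¹' O ∈ 𝓝 (y, y) := by
          apply hcont.continuousAt
          simpa using hO
        rw [nhds_prod_eq, mem_prod_self_iff] at h2
        obtain ⟨P, hP, hPP⟩ := h2
        have h3 : f ⁻¹' P ∈ (U : Filter W) := hUy hP
        refine mem_of_superset h3 ?_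
        intro g hg
        show act g x = act w x
        apply eq_of_agree
        intro n
        obtain ⟨h, hh1, hh2⟩ := ((hw x n).and h3).exists
        have h4 : g⁻¹ * h ∈ {g : W | act g x = x} := by
          apply hOx
          show f (g⁻¹ * h) ∈ O
          rw [map_mul, map_inv]
          exact hPP (Set.mk_mem_prod hg hh2)
        have h5 : act h x = act g x := by
          have h6 : act (g⁻¹ * h) x = x := h4
          rw [act_mul] at h6
          rw [← act_act_inv g (act h x), h6]
        rw [← h5]
        exact hh1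
      exact (hf.tendsto w).mono_left hle
  exact ⟨w, tendsto_nhds_unique hconv hUy⟩

end coarser

/-! ## The compact topology -/

/-- The same group, to be given its compact topology. -/
def Wb : Type := W

instance : Group Wb := inferInstanceAs (Group W)

/-- The action of `Wb` on the boundary. -/
def actb (g : Wb) (x : Om) : Om := act g x

theorem actb_mul (g h : Wb) (x : Om) : actb (g * h) x = actb g (actb h x) := rfl

theorem actb_inv_actb (g : Wb) (x : Om) : actb g⁻¹ (actb g x) = x := act_inv_act g x

theorem actb_actb_inv (g : Wb) (x : Om) : actb g (actb g⁻¹ x) = x := act_act_inv g x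

theorem agree_actb (g : Wb) (n : ℕ) (x y : Om) :
    agree n (actb g x) (actb g y) ↔ agree n x y := agree_act g n x y

theorem exists_actb_ne {g h : Wb} (hne : g ≠ h) : ∃ x, actb g x ≠ actb h x :=
  exists_act_ne hne

theorem ultralimit_b (U : Ultrafilter Wb) :
    ∃ w : Wb, ∀ x n, ∀ᶠ g in (U : Filter Wb), agree n (actb g x) (actb w x) := ultralimit U

/-- Convergence of all finite prefixes. -/
instance topWb : TopologicalSpace Wb :=
  TopologicalSpace.generateFrom {s | ∃ x i b, s = {g : Wb | actb g x i = b}}

theorem isOpen_basic_b (x : Om) (i : ℕ) (b : Bool) : IsOpen {g : Wb | actb g x i = b} :=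
  TopologicalSpace.isOpen_generateFrom_of_mem ⟨x, i, b, rfl⟩

theorem isOpen_agree_b (x : Om) (n : ℕ) (y : Om) :
    IsOpen {g : Wb | agree n (actb g x) y} := by
  have : {g : Wb | agree n (actb g x) y} =
      ⋂ i ∈ Finset.range n, {g : Wb | actb g x i = y i} := by
    ext g
    simp [agree]
  rw [this]
  exact isOpen_biInter_finset fun i _ => isOpen_basic_b x i (y i)

instance : IsTopologicalGroup Wb where
  continuous_mul := by
    refine continuous_generateFrom_iff.mpr ?_
    rintro _ ⟨x, i, b, rfl⟩
    have : (fun p : Wb × Wb => p.1 * p.2) ⁻¹' {g : Wb | actb g x i = b} =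
        ⋃ z, {g : Wb | actb g z i = b} ×ˢ {h : Wb | agree (i + 1) (actb h x) z} := by
      ext ⟨g, h⟩
      rw [Set.mem_iUnion]
      constructor
      · intro h1
        exact ⟨actb h x, h1, agree_refl _ _⟩
      · rintro ⟨z, h1, h2⟩
        have h3 := (agree_actb g (i + 1) _ _).mpr h2 i (Nat.lt_succ_self i)
        exact h3.trans h1
    rw [this]
    exact isOpen_iUnion fun z => (isOpen_basic_b z i b).prod (isOpen_agree_b x (i + 1) z)
  continuous_inv := by
    refine continuous_generateFrom_iff.mpr ?_
    rintro _ ⟨x, i, b, rfl⟩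
    have : (fun g : Wb => g⁻¹) ⁻¹' {g : Wb | actb g x i = b} =
        ⋃ z : {z : Om // z i = b}, {g : Wb | agree (i + 1) (actb g z.1) x} := by
      ext g
      rw [Set.mem_iUnion]
      constructor
      · intro h1
        refine ⟨⟨actb g⁻¹ x, h1⟩, ?_⟩
        show agree (i + 1) (actb g (actb g⁻¹ x)) x
        rw [actb_actb_inv]
        exact agree_refl _ _
      · rintro ⟨⟨z, hz⟩, h2⟩
        have h3 := (agree_actb g⁻¹ (i + 1) _ _).mpr h2 i (Nat.lt_succ_self i)
        rw [actb_inv_actb] at h3
        exact h3.symm.trans hz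
    rw [this]
    exact isOpen_iUnion fun z => isOpen_agree_b z.1 (i + 1) x

instance : T2Space Wb where
  t2 := by
    intro g h hne
    obtain ⟨x, hx⟩ := exists_actb_ne hne
    obtain ⟨i, hi⟩ := Function.ne_iff.mp hx
    refine ⟨_, _, isOpen_basic_b x i (actb g x i), isOpen_basic_b x i (actb h x i), rfl, rfl, ?_⟩
    rw [Set.disjoint_left]
    intro k hk hk'
    exact hi (Eq.trans (Eq.symm hk) hk')

instance : CompactSpace Wb := by
  rw [← isCompact_univ_iff, isCompact_iff_ultrafilter_le_nhds]
  intro U _
  obtain ⟨w, hw⟩ := ultralimit_b U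
  refine ⟨w, Set.mem_univ _, ?_⟩
  rw [TopologicalSpace.nhds_generateFrom]
  refine le_iInf₂ ?_
  rintro _ ⟨h1, x, i, b, rfl⟩
  have h2 : actb w x i = b := h1
  rw [le_principal_iff]
  refine mem_of_superset (hw x (i + 1)) ?_
  intro g hg
  exact (hg i (Nat.lt_succ_self i)).trans h2

/-- The identity, from the pointwise topology to the compact topology. -/
def toWb : W →* Wb := MonoidHom.id W

theorem actb_toWb (g : W) (x : Om) : actb (toWb g) x = act g x := rfl

theorem continuous_toWb : Continuous toWb := by
  refine continuous_generateFrom_iff.mpr ?_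
  rintro _ ⟨x, i, b, rfl⟩
  have : toWb ⁻¹' {g : Wb | actb g x i = b} =
      ⋃ z : {z : Om // z i = b}, {g : W | act g x = z.1} := by
    ext g
    rw [Set.mem_iUnion]
    constructor
    · intro h1
      exact ⟨⟨act g x, h1⟩, rfl⟩
    · rintro ⟨⟨z, hz⟩, h2⟩
      have h3 : act g x = z := h2
      show actb (toWb g) x i = b
      rw [actb_toWb, h3]; exact hz
  rw [this]
  exact isOpen_iUnion fun z => isOpen_basic x z.1

theorem injective_toWb : Function.Injective toWb := fun _ _ h => h

end Pool.Agent.Helper177.Tree
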